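import Pool.Agent.Q244.OC.LastMat
import Pool.Agent.W254.HP.Prod
import Pool.Agent.W254.PA.LogP
import Pool.Agent.W245.PB.BakerThmP
import Pool.Agent.H297R2.InBakerThm

/-!
# Singular matrices of logarithms: all columns but one in a given space

A violation of Q1 (Q2) is a singular square matrix of complex (`p`-adic) logarithms of algebraic
numbers without rational zero, i.e. without nonzero rational vectors `w`, `v` with `wᵗ M v = 0`.  Let
`Λ₀` be a rational vector space of finite dimension of logarithms of algebraic numbers.  For every `n`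
there is a finite dimensional rational space `Λ'` of logarithms of algebraic numbers such that one of
the following holds:

* all the entries of all violations `M` of size `n + 1`, for which all columns but one (or all rows
  but one) have their entries in `Λ₀`, the last column (row) being arbitrary, lie in `Λ'`;
* there is a violation of size `n` with entries in `Λ₀`.

There is no violation of size one, so for `2 × 2` matrices the first case holds.

Proof.  Expanding the determinant along the last column gives a linear relation `∑ C_i z_i = 0` between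
its entries; the cofactors `C_i` lie in the space `S` spanned by the products of `n` elements of `Λ₀`.  By
the hyperplane case of the linear subgroup theorem the linear relations with coefficients in `S` between
linear forms in logarithms form a finite dimensional space.  With Baker's theorem it follows that the
`z_i` lie in a space `Λ'` depending only on `Λ₀` and `n` if the `C_i` are linearly independent over `ℚ`.
A relation `∑ w_i C_i = 0` with rational `w_i` produces a violation of size `n` with entries in `Λ₀`.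
-/

set_option autoImplicit false

namespace Pool.Agent.Results.MP_1f047c_nt.AllColumnsButOne

open Module

/-- `L` is the Iwasawa `p`-adic logarithm on the algebraic closure of `ℚ_p`. -/
def IsIwasawaLog (p : ℕ) [Fact p.Prime] (L : PadicAlgCl p → PadicAlgCl p) : Prop :=
  (∀ x y : PadicAlgCl p, x ≠ 0 → y ≠ 0 → L (x * y) = L x + L y) ∧
  L ((p : ℕ) : PadicAlgCl p) = 0 ∧
  ∀ z : PadicAlgCl p, ‖z‖ < 1 →
    HasSum (fun n : ℕ => (-1 : PadicAlgCl p) ^ n * z ^ (n + 1) / ((n : PadicAlgCl p) + 1))
      (L (1 + z))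

/-- The logarithms of the nonzero algebraic numbers: complex and `p`-adic. -/
def Logs : Set ℂ := {z | IsAlgebraic ℚ (Complex.exp z)}

@[inherit_doc Logs]
def PadicLogs {p : ℕ} [Fact p.Prime] (L : PadicAlgCl p → PadicAlgCl p) : Set (PadicAlgCl p) :=
  {z | ∃ α : PadicAlgCl p, α ≠ 0 ∧ IsAlgebraic ℚ α ∧ z = L α}

/-- `M` is singular, has entries in `S`, and `wᵗ M v ≠ 0` for all nonzero rational vectors. -/
def Violation {E : Type} [Field E] [CharZero E] (S : Set E) {n : ℕ}
    (M : Matrix (Fin n) (Fin n) E) : Prop :=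
  (∀ i j, M i j ∈ S) ∧ M.det = 0 ∧
    ∀ w v : Fin n → ℚ, w ≠ 0 → v ≠ 0 → ∑ i, ∑ j, (w i : E) * M i j * (v j : E) ≠ 0

/-- All columns but one, or all rows but one, of `M` have their entries in `Λ₀`. -/
def AllButOne {E : Type} [Field E] [CharZero E] (Λ₀ : Submodule ℚ E) {n : ℕ}
    (M : Matrix (Fin n) (Fin n) E) : Prop :=
  (∃ j₀, ∀ i j, j ≠ j₀ → M i j ∈ Λ₀) ∨ ∃ i₀, ∀ i j, i ≠ i₀ → M i j ∈ Λ₀

/-- The assertion for the set `S` of logarithms. -/
def Finiteness {E : Type} [Field E] [CharZero E] (S : Set E) : Prop :=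
  ∀ (n : ℕ) (Λ₀ : Submodule ℚ E), FiniteDimensional ℚ Λ₀ → (Λ₀ : Set E) ⊆ S →
    ∃ Λ' : Submodule ℚ E, FiniteDimensional ℚ Λ' ∧ (Λ' : Set E) ⊆ S ∧
      ∀ M : Matrix (Fin (n + 1)) (Fin (n + 1)) E, Violation S M → AllButOne Λ₀ M →
        (∀ i j, M i j ∈ Λ') ∨ ∃ N : Matrix (Fin n) (Fin n) E, Violation (Λ₀ : Set E) N

section aux

open Pool.Agent.Q244.OC

private def cLogs : Submodule ℚ ℂ where
  carrier := Logs
  add_mem' := by
    intro a b ha hb
    show IsAlgebraic ℚ _
    rw [Complex.exp_add]
    exact IsAlgebraic.mul ha hb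
  zero_mem' := by
    show IsAlgebraic ℚ _
    rw [Complex.exp_zero]
    exact isAlgebraic_one
  smul_mem' := by
    intro c z hz'
    show IsAlgebraic ℚ _
    have hden : (c.den : ℂ) ≠ 0 := by exact_mod_cast c.den_nz
    have h6 : Complex.exp (c • z) ^ c.den = Complex.exp z ^ c.num := by
      rw [← Complex.exp_nat_mul, ← Complex.exp_int_mul]
      congr 1
      rw [Rat.smul_def]
      have : (c : ℂ) = c.num / c.den := by
        exact_mod_cast (Rat.num_div_den c).symm
      rw [this]
      field_simp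
    have h7 : IsAlgebraic ℚ (Complex.exp z ^ c.num) := by
      have hz : IsAlgebraic ℚ (Complex.exp z) := hz'
      rcases Int.eq_nat_or_neg c.num with ⟨m, hm | hm⟩
      · rw [hm, zpow_natCast]
        exact hz.pow m
      · rw [hm, zpow_neg, zpow_natCast]
        exact (hz.pow m).inv
    rw [← h6] at h7
    exact IsAlgebraic.of_pow c.den_pos h7

private theorem cBaker : BakerP (algebraicClosure ℚ ℂ) cLogs := by
  intro m b hb hli c₀ c h
  obtain ⟨h1, h2⟩ := Pool.Agent.H297R2.baker_inhom b hb hli (c₀ : ℂ)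
    (mem_algebraicClosure_iff.mp c₀.2) (fun i => (c i : ℂ))
    (fun i => mem_algebraicClosure_iff.mp (c i).2) (by
      rw [← h, Algebra.smul_def, mul_one]
      congr 1)
  exact ⟨by exact_mod_cast h1, fun i => by exact_mod_cast h2 i⟩

private theorem cHyp : Pool.Agent.W254.PA.Hyp
    (Submodule.span (algebraicClosure ℚ ℂ) ({1} ∪ (cLogs : Set ℂ))) :=
  fun d l x a hx ha hxa hcol => Pool.Agent.W254.HP.hyperplane d l x a hx ha hxa hcol

variable {p : ℕ} [hp : Fact p.Prime] {L : PadicAlgCl p → PadicAlgCl p}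

private theorem log' (hL : IsIwasawaLog p L) : Pool.Agent.W245.PB.IsIwasawaLog p L :=
  ⟨hL.1, hL.2.1, hL.2.2⟩

private def pLogs (hL : IsIwasawaLog p L) : Submodule ℚ (PadicAlgCl p) where
  carrier := PadicLogs L
  add_mem' := by
    rintro _ _ ⟨α, h1, h2, rfl⟩ ⟨β, h3, h4, rfl⟩
    exact ⟨α * β, mul_ne_zero h1 h3, h2.mul h4, (hL.1 α β h1 h3).symm⟩
  zero_mem' := ⟨1, one_ne_zero, isAlgebraic_one, (log' hL).one.symm⟩
  smul_mem' := by
    rintro c _ ⟨α, h1, h2, rfl⟩
    obtain ⟨β, hβ⟩ := IsAlgClosed.exists_pow_nat_eq (α ^ c.num) c.den_pos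
    have hβ0 : β ≠ 0 := by
      rintro rfl
      rw [zero_pow c.den_nz] at hβ
      exact zpow_ne_zero _ h1 hβ.symm
    have halg : IsAlgebraic ℚ (α ^ c.num) := by
      rcases Int.eq_nat_or_neg c.num with ⟨m, hm | hm⟩
      · rw [hm, zpow_natCast]
        exact h2.pow m
      · rw [hm, zpow_neg, zpow_natCast]
        exact (h2.pow m).inv
    refine ⟨β, hβ0, IsAlgebraic.of_pow c.den_pos (by rw [hβ]; exact halg), ?_⟩
    have h3 := (log' hL).pow hβ0 c.den
    rw [hβ, (log' hL).zpow h1] at h3
    have hden : (c.den : PadicAlgCl p) ≠ 0 := by exact_mod_cast c.den_nz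
    rw [Rat.smul_def]
    have h4 : (c : PadicAlgCl p) = c.num / c.den := by
      exact_mod_cast (Rat.num_div_den c).symm
    rw [h4]
    field_simp
    linear_combination h3

private theorem pBaker (hL : IsIwasawaLog p L) :
    BakerP (algebraicClosure ℚ (PadicAlgCl p)) (pLogs hL) := by
  intro m b hb hli c₀ c h
  choose α h1 h2 h3 using hb
  have e : b = fun i => L (α i) := funext h3
  rw [e] at hli h
  obtain ⟨h4, h5⟩ := Pool.Agent.W245.PB.brumer (log' hL) α h1 h2 hli (c₀ : PadicAlgCl p)
    (mem_algebraicClosure_iff.mp c₀.2) (fun i => (c i : PadicAlgCl p))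
    (fun i => mem_algebraicClosure_iff.mp (c i).2) (by
      rw [← h, Algebra.smul_def, mul_one]
      congr 1)
  exact ⟨by exact_mod_cast h4, fun i => by exact_mod_cast h5 i⟩

end aux

/-- **Main result.** -/
theorem result : Finiteness Logs ∧
    ∀ (p : ℕ) [Fact p.Prime] (L : PadicAlgCl p → PadicAlgCl p), IsIwasawaLog p L →
      Finiteness (PadicLogs L) := by
  refine ⟨?_, fun p _ L hL => ?_⟩
  · intro n Λ₀ hfin hΛ₀
    obtain ⟨Λ', h1, h2, h3, h4⟩ := Pool.Agent.Q244.OC.main cHyp cBaker n Λ₀ hΛ₀
    exact ⟨Λ', h3, h2, h4⟩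
  · intro n Λ₀ hfin hΛ₀
    obtain ⟨Λ', h1, h2, h3, h4⟩ := Pool.Agent.Q244.OC.main (Λ := pLogs hL)
      (Pool.Agent.W254.PA.hyp_padic (log' hL)) (pBaker hL) n Λ₀ hΛ₀
    exact ⟨Λ', h3, h2, h4⟩

end Pool.Agent.Results.MP_1f047c_nt.AllColumnsButOne
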