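import Mathlib
import Pool.Agent.Q29.EqDet
import Pool.Agent.Y120.RealPolys
import Pool.Agent.TH659.AQ.Log

/-!
# Matrices of logarithms of any size: the multiples of the determinants, for almost all tuples of rationals

Let `x_1, …, x_k` be distinct real numbers, for instance algebraic numbers, and `m ≥ 1`. For all but `C T ^ (2 (n - 1) + ε)` of
the `n`-tuples of rational numbers `q_j` with denominators at most `T` and all `M` between `T ^ B` and `T ^ E` the following
holds for ALL `m × m` matrices whose entries are integer linear forms in `π i` and the `log (q_j + x_i)`, with coefficients at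
most `M ^ κ`: if the determinant `Δ` is zero there are nonzero rational vectors `w`, `v` with `wᵗ A v = 0`; and each of the real
numbers `Re Δ`, `Im Δ` is zero or has uniformly distributed multiples: `u Δ`, `u < M`, also for `u` in the set of the `k`-th
powers or of the prime numbers in a residue class, is uniformly distributed modulo one with an error `M ^ (1 - κ)`. So a
determinant which is not zero is far from all rational numbers, and its multiples behave like those of a generic number.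

The proof uses the bound for the number of the rational points with approximate polynomial relations (starting file
`Y120.RealPolys`), the determinants of matrices of linear forms (`TH659.AQ.StrRank`), an inverse theorem for the sums of Weyl
and a form of the estimate of Vinogradov for the sums over primes with a power saving (`H373R2/NB`, `W110/HV`).
-/

set_option autoImplicit false

namespace Pool.Agent.Results.MP_1f047c_nt.DeterminantMultiples

open Finset Polynomial

/-- The multiples of `x` are uniformly distributed at the scale `M`, with a power saving, along all polynomials of degree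
at most `K` and along the primes of all residue classes:

* for every nonzero integer `b` with `|b| ≤ M ^ κ`, every `1 ≤ k ≤ K` and every real polynomial `R` of degree less than
  `k`, the number of `0 ≤ n < M` with the fractional part of `b x n ^ k + R(n)` in `[u, v)` is `(v - u) M` up to
  `M ^ (1 - κ)`, for all `0 ≤ u ≤ v ≤ 1`;
* for every such `b`, every `1 ≤ d ≤ M ^ κ`, every `r` and every real `β`, the number of primes `p ≤ M` with
  `p ≡ r (mod d)` and the fractional part of `b x p + β` in `[u, v)` is `(v - u)` times the number of all the primes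
  `p ≤ M` with `p ≡ r (mod d)`, up to `M ^ (1 - κ)`. -/
def Good (κ : ℝ) (K M : ℕ) (x : ℝ) : Prop :=
  (∀ b : ℤ, b ≠ 0 → |(b : ℝ)| ≤ (M : ℝ) ^ κ → ∀ k : ℕ, 1 ≤ k → k ≤ K → ∀ R : ℝ[X], R.degree < k →
    ∀ u v : ℝ, 0 ≤ u → u ≤ v → v ≤ 1 →
      |(((range M).filter fun n : ℕ => u ≤ Int.fract (b * x * (n : ℝ) ^ k + R.eval (n : ℝ)) ∧
          Int.fract (b * x * (n : ℝ) ^ k + R.eval (n : ℝ)) < v).card : ℝ) - (v - u) * M| ≤
        (M : ℝ) ^ (1 - κ)) ∧
  (∀ b : ℤ, b ≠ 0 → |(b : ℝ)| ≤ (M : ℝ) ^ κ → ∀ d r : ℕ, 1 ≤ d → (d : ℝ) ≤ (M : ℝ) ^ κ → ∀ β : ℝ,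
    ∀ u v : ℝ, 0 ≤ u → u ≤ v → v ≤ 1 →
      |(((range (M + 1)).filter fun p : ℕ => (p.Prime ∧ p ≡ r [MOD d]) ∧
          (u ≤ Int.fract (b * x * p + β) ∧ Int.fract (b * x * p + β) < v)).card : ℝ) -
        (v - u) * ((range (M + 1)).filter fun p : ℕ => p.Prime ∧ p ≡ r [MOD d]).card| ≤
        (M : ℝ) ^ (1 - κ))

/-- The logarithms `∑ c_(j,i) log (q_j + x_i) + c_0 π i` of the numbers `± ∏ (q_j + x_i) ^ c_(j,i)` with integers `c` of absolute
value at most `H`. -/
def Logs {n k : ℕ} (x : Fin k → ℝ) (q : Fin n → ℚ) (H : ℝ) : Set ℂ :=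
  {z | ∃ (c : Fin n → Fin k → ℤ) (c0 : ℤ), (∀ j i, |(c j i : ℝ)| ≤ H) ∧ |(c0 : ℝ)| ≤ H ∧
    z = ((∑ j, ∑ i, (c j i : ℝ) * Real.log (q j + x i) : ℝ) : ℂ) + c0 * (Real.pi * Complex.I)}

/-- The assertion for the tuple `q` and the scale `M`, for all `m × m` matrices with entries in `Logs`: if the determinant is
zero there are nonzero rational vectors `w`, `v` with `wᵗ A v = 0`, the real part of the determinant is zero or has uniformly
distributed multiples, its imaginary part is zero or has uniformly distributed multiples. -/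
def Holds {n k : ℕ} (m : ℕ) (x : Fin k → ℝ) (κ : ℝ) (K M : ℕ) (q : Fin n → ℚ) : Prop :=
  ∀ A : Matrix (Fin m) (Fin m) ℂ, (∀ i j, A i j ∈ Logs x q ((M : ℝ) ^ κ)) →
    (A.det = 0 → ∃ w v : Fin m → ℚ, w ≠ 0 ∧ v ≠ 0 ∧ ∑ i, ∑ j, (w i : ℂ) * A i j * (v j : ℂ) = 0) ∧
    (A.det.re = 0 ∨ Good κ K M A.det.re) ∧ (A.det.im = 0 ∨ Good κ K M A.det.im)

/-- The `n`-tuples of rational numbers in `[a, b]` with denominators at most `T` for which the assertion fails for some `M`
between `T ^ B` and `T ^ E`. -/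
def Exceptional {k : ℕ} (n m : ℕ) (x : Fin k → ℝ) (a b κ : ℝ) (K : ℕ) (B E T : ℝ) : Set (Fin n → ℚ) :=
  {q | (∀ j, a ≤ q j ∧ (q j : ℝ) ≤ b ∧ ((q j).den : ℝ) ≤ T) ∧ ∃ M : ℕ, T ^ B ≤ (M : ℝ) ∧ (M : ℝ) ≤ T ^ E ∧
    ¬ Holds m x κ K M q}

open Pool.Agent.TH659.AQ in
/-- Let `x_1, …, x_k` be distinct real numbers, `a < b` with `a + x_i > 0`, `n, m ≥ 1` and `ε > 0`. -/
theorem result (n k m : ℕ) (hn : 1 ≤ n) (hm : 1 ≤ m) (x : Fin k → ℝ) (hx : Function.Injective x) (a b : ℝ) (hab : a < b)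
    (hpos : ∀ i, 0 < a + x i) (ε : ℝ) (hε : 0 < ε) :
    ∃ B : ℝ, 1 ≤ B ∧ ∀ (K : ℕ) (E : ℝ), ∃ κ : ℝ, 0 < κ ∧ ∃ C : ℝ, ∀ T : ℝ, 1 ≤ T →
      (Exceptional n m x a b κ K B E T).Finite ∧
      ((Exceptional n m x a b κ K B E T).ncard : ℝ) ≤ C * T ^ (2 * ((n : ℝ) - 1) + ε) := by
  classical
  have hind : Pool.Agent.Y120.AInd (lf x) a b := fun d => log_ind d k x hx a b hpos hab
  have han : ∀ i, AnalyticOnNhd ℝ (lf x i) (Set.Icc a b) := by
    intro i t ht
    exact lf_an x i (by linarith [ht.1, hpos i])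
  obtain ⟨B₀, C₀, h⟩ := Pool.Agent.Y120.polys_eps (d := m) (fun _ : Fin n => lf x) (fun _ => a) (fun _ => b)
    (fun _ => hab) (fun _ => han) (fun _ => hind) hn 1 ε hε
  obtain ⟨X, hX⟩ := Pool.Agent.Q29.Eqd.vR_bound (n := n) (lf x) a b (fun i t ht => (han i t ht).continuousAt.continuousWithinAt)
  obtain ⟨B, hBE⟩ : ∃ B : ℝ, B = max B₀ 0 := ⟨_, rfl⟩
  have hB : 0 ≤ B := by rw [hBE]; exact le_max_right _ _
  have hBB : B₀ ≤ B := by rw [hBE]; exact le_max_left _ _
  refine ⟨2 * B + 1, by linarith, fun K E => ?_⟩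
  obtain ⟨κ, hκ, T₀, hT₀, hdet⟩ := Pool.Agent.Q29.Eqd.det_good (σ := Fin n × Fin k) (m := m) hm K E (max X 1) B
    (le_max_right _ _) hB
  refine ⟨κ, hκ, ?_⟩
  have hn1 : (1 : ℝ) ≤ n := by exact_mod_cast hn
  refine Pool.Agent.Q29.Eqd.rat_transfer a b (2 * ((n : ℝ) - 1) + ε) C₀ T₀ (by linarith)
    (fun T => Exceptional n m x a b κ K (2 * B + 1) E T) _ (fun T q hq => hq.1) h (fun T hT hTT q hq => ?_)
  obtain ⟨hq1, M, hM1, hM2, hnot⟩ := hq
  refine ⟨hq1, ?_⟩
  by_contra hcon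
  push Not at hcon
  apply hnot
  intro A hAF
  obtain ⟨y, hy⟩ : ∃ y : Fin n × Fin k → ℝ, y = fun s => lf x s.2 (q s.1) := ⟨_, rfl⟩
  have hvl : Pool.Agent.Y120.vR (fun _ : Fin n => lf x) q = vl y := by
    funext z
    rw [hy]
    cases z <;> rfl
  have hvl2 : Pool.Agent.TH659.AQ.vR (lf x) q = vl y := by
    funext z
    rw [hy]
    cases z <;> rfl
  have hmeas : ∀ P : MvPolynomial (Option (Fin n × Fin k)) ℤ, P ≠ 0 → (∀ x, P.degreeOf x ≤ m) →
      (∀ c, |((P.coeff c : ℤ) : ℝ)| ≤ T) → T ^ (-B) < |MvPolynomial.aeval (vl y) P| := by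
    intro P hP0 hPd hPc
    have h3 := hcon P hP0 hPd (fun c => by
      rw [Real.rpow_one]
      exact hPc c)
    rw [hvl] at h3
    refine lt_of_le_of_lt ?_ h3
    exact Real.rpow_le_rpow_of_exponent_le hT (by linarith)
  have hbd : ∀ i, |vl y i| ≤ max X 1 := by
    intro i
    rw [← hvl2]
    exact (hX q (fun j => ⟨(hq1 j).1, (hq1 j).2.1⟩) i).trans (le_max_left _ _)
  choose c c0 hc hc0 hMe using hAF
  obtain ⟨cc, hccE⟩ : ∃ cc : Fin m → Fin m → Option (Fin n × Fin k) → ℤ,
    cc = fun i j s => s.elim (c0 i j) (fun z => c i j z.1 z.2) := ⟨_, rfl⟩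
  have hcc : ∀ i j s, |(cc i j s : ℝ)| ≤ (M : ℝ) ^ κ := by
    intro i j s
    rw [hccE]
    rcases s with _ | z
    · exact hc0 i j
    · exact hc i j z.1 z.2
  have hAc : A = cMat cc y := by
    ext i j
    rw [hMe i j, hccE]
    simp only [cMat, Matrix.of_apply, Fintype.sum_option, vc, Option.elim, hy, lf]
    rw [Fintype.sum_prod_type]
    push_cast
    ring
  obtain ⟨g1, g2, g3⟩ := hdet T hTT y hbd hmeas M hM1 hM2 cc hcc
  rw [← hAc] at g1 g2 g3
  refine ⟨fun h0 => ?_, g1, g2⟩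
  obtain ⟨w, v, hw, hv, hwv⟩ := g3 h0
  refine ⟨w, v, hw, hv, ?_⟩
  have h1 : ∑ i, ∑ j, (w i : ℂ) * A i j * (v j : ℂ) =
      ∑ s, (∑ i, ∑ j, (w i : ℂ) * ((cc i j s : ℤ) : ℂ) * (v j : ℂ)) * vc y s := by
    rw [hAc]
    simp only [cMat, Matrix.of_apply, Finset.mul_sum, Finset.sum_mul]
    rw [Finset.sum_comm]
    simp only [Finset.sum_comm (s := (Finset.univ : Finset (Option (Fin n × Fin k))))]
    rw [Finset.sum_comm]
    refine Finset.sum_congr rfl fun i _ => ?_
    refine Finset.sum_congr rfl fun j _ => ?_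
    refine Finset.sum_congr rfl fun s _ => ?_
    ring
  rw [h1]
  refine Finset.sum_eq_zero fun s _ => ?_
  have h2 := congrArg (fun r : ℚ => (r : ℂ)) (hwv s)
  push_cast at h2
  rw [h2, zero_mul]

end Pool.Agent.Results.MP_1f047c_nt.DeterminantMultiples
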