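import Mathlib
import Pool.Agent.Q29.OvDet2

/-!
# Matrices of logarithms of every size in the groups generated by `u` and almost all tuples of integers

Let `u` be a positive real number, for instance an algebraic number, with `N ^ (-H) ≤ |log u| ≤ N ^ H`; it may depend on `N`. For
all but `C N ^ (m - 1 + ε)` of the `m`-tuples of positive integers `x_j ≤ N` the following holds for ALL `r × r` matrices whose
entries are logarithms of the numbers `u ^ c_0 * ∏ x_j ^ c_j` with integers `|c| ≤ N ^ A`: if the determinant `Δ` is zero, there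
are nonzero rational vectors `w`, `v` with `wᵗ M v = 0`; and if `Δ` is not an integral multiple of `(log u) ^ r`, then it has
uniformly distributed multiples at all the scales `M` between `N ^ B` and `N ^ E`: `n Δ`, `n < M`, also for `n` in the set of the
`k`-th powers or of the prime numbers in a residue class, is uniformly distributed modulo one, with an error `M ^ (1 - κ)`. The
constants do not depend on `u`.

The proof uses the counting theorem over arbitrary constants of the starting files (`Y890.UC`), the determinants of linear forms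
(`TH659.AQ`), an inverse theorem for the sums of Weyl and a form of the estimate of Vinogradov for the sums over primes with a
power saving (`H373R2/NB`, `W110/HV`).
-/

set_option autoImplicit false

namespace Pool.Agent.Results.MP_1f047c_nt.MultiplesOverConstant

open Finset Polynomial

/-- The multiples of `x` are uniformly distributed at the scale `M`, with a power saving, along all polynomials of degree
at most `K` and along the primes of all residue classes:

* for every nonzero integer `b` with `|b| ≤ M ^ κ`, every `1 ≤ k ≤ K` and every real polynomial `R` of degree less than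
  `k`, the number of `0 ≤ n < M` with the fractional part of `b x n ^ k + R(n)` in `[u, v)` is `(v - u) M` up to
  `M ^ (1 - κ)`, for all `0 ≤ u ≤ v ≤ 1`;
* for every such `b`, every `1 ≤ d ≤ M ^ κ`, every `r` and every real `β`, the number of primes `p ≤ M` with
  `p ≡ r (mod d)` and the fractional part of `b x p + β` in `[u, v)` is `(v - u)` times the number of all the primes
  `p ≤ M` with `p ≡ r (mod d)`, up to `M ^ (1 - κ)`. -/
def Good (κ : ℝ) (K M : ℕ) (x : ℝ) : Prop :=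
  (∀ b : ℤ, b ≠ 0 → |(b : ℝ)| ≤ (M : ℝ) ^ κ → ∀ k : ℕ, 1 ≤ k → k ≤ K → ∀ R : ℝ[X], R.degree < k →
    ∀ u v : ℝ, 0 ≤ u → u ≤ v → v ≤ 1 →
      |(((range M).filter fun n : ℕ => u ≤ Int.fract (b * x * (n : ℝ) ^ k + R.eval (n : ℝ)) ∧
          Int.fract (b * x * (n : ℝ) ^ k + R.eval (n : ℝ)) < v).card : ℝ) - (v - u) * M| ≤
        (M : ℝ) ^ (1 - κ)) ∧
  (∀ b : ℤ, b ≠ 0 → |(b : ℝ)| ≤ (M : ℝ) ^ κ → ∀ d r : ℕ, 1 ≤ d → (d : ℝ) ≤ (M : ℝ) ^ κ → ∀ β : ℝ,
    ∀ u v : ℝ, 0 ≤ u → u ≤ v → v ≤ 1 →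
      |(((range (M + 1)).filter fun p : ℕ => (p.Prime ∧ p ≡ r [MOD d]) ∧
          (u ≤ Int.fract (b * x * p + β) ∧ Int.fract (b * x * p + β) < v)).card : ℝ) -
        (v - u) * ((range (M + 1)).filter fun p : ℕ => p.Prime ∧ p ≡ r [MOD d]).card| ≤
        (M : ℝ) ^ (1 - κ))

/-- The logarithms `c_0 log u + ∑ c_j log x_j` of the numbers `u ^ c_0 * ∏ x_j ^ c_j` with integers `c` of absolute value at
most `H`. -/
def Logs {m : ℕ} (u : ℝ) (x : Fin m → ℕ) (H : ℝ) : Set ℝ :=
  {l | ∃ (c0 : ℤ) (c : Fin m → ℤ), |(c0 : ℝ)| ≤ H ∧ (∀ j, |(c j : ℝ)| ≤ H) ∧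
    l = c0 * Real.log u + ∑ j, (c j : ℝ) * Real.log (x j)}

/-- The assertion for the tuple `x`, for all `r × r` matrices with entries in `Logs u x H`: if the determinant is zero there are
nonzero rational vectors `w`, `v` with `wᵗ M v = 0`; and the determinant is an integral multiple of `(log u) ^ r` or it has
uniformly distributed multiples at all the scales between `M₁` and `M₂`. -/
def Holds {m : ℕ} (r : ℕ) (u H κ : ℝ) (K : ℕ) (M₁ M₂ : ℝ) (x : Fin m → ℕ) : Prop :=
  ∀ A : Matrix (Fin r) (Fin r) ℝ, (∀ i j, A i j ∈ Logs u x H) →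
    (A.det = 0 → ∃ w v : Fin r → ℚ, w ≠ 0 ∧ v ≠ 0 ∧ ∑ i, ∑ j, (w i : ℝ) * A i j * (v j : ℝ) = 0) ∧
    ((∃ n : ℤ, A.det = n * Real.log u ^ r) ∨ ∀ M : ℕ, M₁ ≤ M → (M : ℝ) ≤ M₂ → Good κ K M A.det)

/-- The `m`-tuples of integers `1 ≤ x_j ≤ N` for which the assertion fails. -/
def Exceptional (m r : ℕ) (u A κ : ℝ) (K : ℕ) (B E : ℝ) (N : ℕ) : Set (Fin m → ℕ) :=
  {x | (∀ j, 1 ≤ x j ∧ x j ≤ N) ∧ ¬ Holds r u ((N : ℝ) ^ A) κ K ((N : ℝ) ^ B) ((N : ℝ) ^ E) x}

theorem result (m r K : ℕ) (hm : 1 ≤ m) (H A ε : ℝ) (hH : 0 ≤ H) (hA : 0 ≤ A) (hε : 0 < ε) :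
    ∃ B : ℝ, 1 ≤ B ∧ ∀ E : ℝ, ∃ κ : ℝ, 0 < κ ∧ ∃ C : ℝ, ∀ N : ℕ, 1 ≤ N →
      ∀ u : ℝ, 0 < u → (N : ℝ) ^ (-H) ≤ |Real.log u| → |Real.log u| ≤ (N : ℝ) ^ H →
        (Exceptional m r u A κ K B E N).Finite ∧
        ((Exceptional m r u A κ K B E N).ncard : ℝ) ≤ C * (N : ℝ) ^ ((m : ℝ) - 1 + ε) := by
  classical
  obtain ⟨B, hB, h⟩ := Pool.Agent.Q29.Eqd.det_ov2 m r K hm H A ε hH hA hε
  refine ⟨B, hB, fun E => ?_⟩
  obtain ⟨κ, C, hκ, h2⟩ := h E
  refine ⟨κ, hκ, C, fun N hN u hu hu1 hu2 => ?_⟩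
  obtain ⟨S, hSf, hSc, hS⟩ := h2 N hN (Real.log u) hu1 hu2
  have hsub : Exceptional m r u A κ K B E N ⊆ S := by
    rintro x ⟨hx, hnot⟩
    by_contra hxS
    apply hnot
    intro W hW
    choose c0 c hc0 hc hWe using hW
    obtain ⟨cc, hcc⟩ : ∃ cc : Fin r → Fin r → (Fin m ⊕ Fin 1) → ℤ, cc = fun i j z => Sum.elim (c i j) (fun _ => c0 i j) z :=
      ⟨_, rfl⟩
    have hlog : W = Matrix.of fun i j => ∑ z, (cc i j z : ℝ) *
        Sum.elim (fun j => Real.log (x j)) (fun _ => Real.log u) z := by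
      ext i j
      rw [hWe i j, Matrix.of_apply, Fintype.sum_sum_type]
      simp only [hcc, Sum.elim_inl, Sum.elim_inr, Fin.sum_univ_one]
      ring
    obtain ⟨g1, g2⟩ := hS x hx hxS cc (by
      intro i j z
      rw [hcc]
      rcases z with z | z
      · exact hc i j z
      · exact hc0 i j) W.det (by rw [← hlog])
    refine ⟨fun h0 => ?_, g1⟩
    obtain ⟨w, v, hw, hv, hwv⟩ := g2 h0
    refine ⟨w, v, hw, hv, ?_⟩
    have h1 : ∑ i, ∑ j, (w i : ℝ) * W i j * (v j : ℝ) =
        ∑ z, (∑ i, ∑ j, (w i : ℝ) * ((cc i j z : ℤ) : ℝ) * (v j : ℝ)) *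
          Sum.elim (fun j => Real.log (x j)) (fun _ => Real.log u) z := by
      rw [hlog]
      simp only [Matrix.of_apply, Finset.mul_sum, Finset.sum_mul]
      rw [Finset.sum_comm]
      simp only [Finset.sum_comm (s := (Finset.univ : Finset (Fin m ⊕ Fin 1)))]
      rw [Finset.sum_comm]
      refine Finset.sum_congr rfl fun i _ => ?_
      refine Finset.sum_congr rfl fun j _ => ?_
      refine Finset.sum_congr rfl fun s _ => ?_
      ring
    rw [h1]
    refine Finset.sum_eq_zero fun s _ => ?_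
    have h2 := congrArg (fun r : ℚ => (r : ℝ)) (hwv s)
    push_cast at h2
    rw [h2, zero_mul]
  refine ⟨hSf.subset hsub, le_trans ?_ hSc⟩
  exact_mod_cast Set.ncard_le_ncard hsub hSf

end Pool.Agent.Results.MP_1f047c_nt.MultiplesOverConstant
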