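import Pool.Agent.Q229.RAE
import Pool.Agent.TH659.AQ.Log
import Pool.Agent.TH659.AQ.Strong

/-!
# Nearly singular matrices of logarithms, of all sizes, at ALL rational points near almost every real point

Let `x_1, …, x_k` be distinct real (for instance algebraic) numbers. For `n`-tuples `q` of rational numbers we consider
matrices of all sizes whose entries are integer linear forms in `1`, `π i` and the logarithms `log (q_j + x_i)`.

With the counting theorem of `Pool.Agent.Y120.RealPolys` (all but `T^(2(n-1)+ε)` of the tuples of height `T` satisfy no approximate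
polynomial relation), the theorem of Flanders on spaces of singular matrices (`TH659.AQ.StrRank`) and coverings we show: near all
real points outside a set of small Hausdorff dimension (dimension zero for `n = 1`; for `τ = 2` this concerns all convergents of
almost every real number) at ALL rational points `q` all matrices with a very small determinant have rational zero
coefficients: `wᵗ M v = 0` with nonzero rational vectors `w`, `v`.
-/

set_option autoImplicit false

open MeasureTheory Filter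
open Pool.Agent.TH659.AQ

namespace Pool.Agent.Results.MP_1f047c_nt.RationalsNearRealPoints

/-- The complex numbers `∑ c_(j,i) log (q_j + x_i) + c_0 π i + c_1` with integers `c` of absolute value at most `H`. -/
def Forms {n k : ℕ} (x : Fin k → ℝ) (q : Fin n → ℚ) (H : ℝ) : Set ℂ :=
  {z | ∃ (c : Fin n → Fin k → ℤ) (c0 c1 : ℤ), (∀ j i, |(c j i : ℝ)| ≤ H) ∧ |(c0 : ℝ)| ≤ H ∧ |(c1 : ℝ)| ≤ H ∧
    z = ((∑ j, ∑ i, (c j i : ℝ) * Real.log (q j + x i) : ℝ) : ℂ) + c0 * (Real.pi * Complex.I) + c1}

/-- **Theorem.** Let `n ≥ 1` and let `x_1, …, x_k` be distinct real numbers. For every `τ > 0` there is a set `Z ⊂ ℝ^n` of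
Hausdorff dimension at most `2 (n - 1) / τ` (dimension `0` for `n = 1`), and of Lebesgue measure zero if `2 (n - 1) < n τ`, such
that for all `y ∉ Z` with all `y_j + x_i > 0`, all `m`, `A`, some `B` and all sufficiently large `T` the following holds for ALL
rational points `q` with denominators at most `T` and `|y_j - q_j| ≤ T ^ (-τ)`: for every `m × m` matrix `M` with entries in
`Forms x q (T ^ A)` and a determinant of absolute value at most `T ^ (-B)` there are nonzero rational vectors `w`, `v` with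
`wᵗ M v = 0`. -/
theorem result (n k : ℕ) (hn : 1 ≤ n) (x : Fin k → ℝ) (hx : Function.Injective x) (τ : ℝ) (hτ : 0 < τ) :
    ∃ Z : Set (Fin n → ℝ), dimH Z ≤ ENNReal.ofReal (2 * ((n : ℝ) - 1) / τ) ∧
      (2 * ((n : ℝ) - 1) < n * τ → volume Z = 0) ∧
      ∀ y : Fin n → ℝ, (∀ j i, 0 < y j + x i) → y ∉ Z → ∀ (m : ℕ) (A : ℝ), ∃ B : ℝ, ∀ᶠ T : ℝ in atTop,
        ∀ q : Fin n → ℚ, (∀ j, ((q j).den : ℝ) ≤ T ∧ |y j - q j| ≤ T ^ (-τ)) →
        ∀ M : Matrix (Fin m) (Fin m) ℂ, (∀ i j, M i j ∈ Forms x q (T ^ A)) → ‖M.det‖ ≤ T ^ (-B) →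
          ∃ w v : Fin m → ℚ, w ≠ 0 ∧ v ≠ 0 ∧ ∑ i, ∑ j, (w i : ℂ) * M i j * (v j : ℂ) = 0 := by
  classical
  have hopen : IsOpen {t : ℝ | ∀ i, 0 < t + x i} := by
    have h1 : {t : ℝ | ∀ i, 0 < t + x i} = ⋂ i, {t : ℝ | 0 < t + x i} := by
      ext t
      simp
    rw [h1]
    exact isOpen_iInter_of_finite fun i => isOpen_lt continuous_const (continuous_id.add continuous_const)
  obtain ⟨Z, h1, h2, h3⟩ := Pool.Agent.Q229.RA.masterOR hn
    (fun _ => lf x) (fun _ => {t : ℝ | ∀ i, 0 < t + x i}) (fun _ => hopen)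
    (fun _ i t ht => lf_an x i (ht i))
    (fun _ a b hab hsub d => log_ind d k x hx a b (hsub ⟨le_rfl, hab.le⟩) hab)
    (fun q z => z.elim Real.pi fun y => lf x y.2 (q y.1)) (fun _ => rfl)
    (fun _ _ _ _ => rfl) τ hτ
  refine ⟨Z, h1, h2, fun y hyD hy m A => ?_⟩
  obtain ⟨B, hB⟩ := h3 y (fun j i => hyD j i) hy m ((m : ℝ) * A + 1)
  refine ⟨B, ?_⟩
  set T1 : ℝ := ((Nat.factorial m : ℕ) : ℝ) * ((Fintype.card (Fin n × Fin k) : ℝ) + 2) ^ m with hT1
  filter_upwards [hB, eventually_ge_atTop 1, eventually_ge_atTop T1] with T hT' hT hge q hq M hM hdet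
  have hcon := hT' q hq
  choose c c0 c1 hc hc0 hc1 hMe using hM
  set z : Fin n × Fin k → ℝ := fun s => lf x s.2 (q s.1) with hz
  set cc : Fin m → Fin m → Option (Option (Fin n × Fin k)) → ℤ :=
    fun i j s => s.elim (c0 i j) (fun s' => s'.elim (c1 i j) (fun z => c i j z.1 z.2)) with hcc
  have hMc : M = cMat cc (y1 z) := by
    ext i j
    rw [hMe i j]
    simp only [cMat, Matrix.of_apply, Fintype.sum_option, hcc, vc, y1, Option.elim, hz, lf]
    rw [Fintype.sum_prod_type]
    push_cast
    ring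
  have hP := str1 z A B T hT hge (fun P hP0 hPd hPc => hcon P hP0 hPd hPc) cc
    (by
      intro i j s
      rcases s with _ | _ | z
      · exact hc0 i j
      · exact hc1 i j
      · exact hc i j z.1 z.2)
    (by rw [← hMc]; exact hdet)
  obtain ⟨w, v, hw, hv, hwv⟩ := zero_det cc hP
  refine ⟨w, v, hw, hv, ?_⟩
  have h1 : ∑ i, ∑ j, (w i : ℂ) * M i j * (v j : ℂ) =
      ∑ s, (∑ i, ∑ j, (w i : ℂ) * ((cc i j s : ℤ) : ℂ) * (v j : ℂ)) * vc (y1 z) s := by
    rw [hMc]
    simp only [cMat, Matrix.of_apply, Finset.mul_sum, Finset.sum_mul]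
    rw [Finset.sum_comm]
    simp only [Finset.sum_comm (s := (Finset.univ : Finset (Option (Option (Fin n × Fin k)))))]
    rw [Finset.sum_comm]
    refine Finset.sum_congr rfl fun i _ => ?_
    refine Finset.sum_congr rfl fun j _ => ?_
    refine Finset.sum_congr rfl fun s _ => ?_
    ring
  rw [h1]
  refine Finset.sum_eq_zero fun s _ => ?_
  have h2 := congrArg (fun r : ℚ => (r : ℂ)) (hwv s)
  push_cast at h2
  rw [h2, zero_mul]

end Pool.Agent.Results.MP_1f047c_nt.RationalsNearRealPoints
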